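import Pool.Agent.P.MP_fef8d9_co.Own

set_option autoImplicit false

namespace Pool.Agent.Results.MP_fef8d9_co.Explicit

open Pool.Agent.P.MP_fef8d9_co

/-- An explicit connected triangle-free graph on 17 vertices with lower irredundance number 6 and
domination number 7, in which every induced subgraph of lower irredundance number at most 5 has
that number as its domination number. -/
theorem result : ∃ G : SimpleGraph (Fin 17),
    G.edgeSet = {s(0, 5), s(0, 6), s(1, 2), s(1, 7), s(1, 8), s(1, 9), s(2, 10), s(3, 4),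
      s(3, 11), s(3, 12), s(4, 13), s(5, 7), s(5, 8), s(5, 11), s(5, 14), s(7, 10), s(8, 12),
      s(8, 15), s(9, 15), s(14, 16)} ∧
    G.Connected ∧ G.CliqueFree 3 ∧
    (∀ (V : Type) (H : SimpleGraph V), Nonempty (H ↪g G) → ∀ i : ℕ, i ≤ 5 →
      IsLeast {n : ℕ | ∃ X : Set V, Maximal (fun Y : Set V => ∀ x ∈ Y,
        (insert x (H.neighborSet x) \ ⋃ y ∈ Y \ {x}, insert y (H.neighborSet y)).Nonempty) X ∧
        X.ncard = n} i →
      IsLeast {n : ℕ | ∃ D : Set V,
        (⋃ y ∈ D, insert y (H.neighborSet y)) = Set.univ ∧ D.ncard = n} i) ∧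
    IsLeast {n : ℕ | ∃ X : Set (Fin 17), Maximal (fun Y : Set (Fin 17) => ∀ x ∈ Y,
      (insert x (G.neighborSet x) \ ⋃ y ∈ Y \ {x}, insert y (G.neighborSet y)).Nonempty) X ∧
      X.ncard = n} 6 ∧
    IsLeast {n : ℕ | ∃ D : Set (Fin 17),
      (⋃ y ∈ D, insert y (G.neighborSet y)) = Set.univ ∧ D.ncard = n} 7 :=
  ⟨Gr, own_edges, own_connected, own_triangle_free,
    fun _ H ⟨f⟩ i hi h => own_small H f i hi h, own_ir, own_gam⟩

end Pool.Agent.Results.MP_fef8d9_co.Explicit
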